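import Pool.Agent.V11323.DirectSum
import Pool.Agent.V11323.Dih

/-!
# Algebraic recurrence does not pass to subgroups of finite index

`G` is the generalised dihedral group of the countable direct sum `A` of infinite cyclic groups
(the semidirect product of `A` with a group of order two acting by inversion), and `H = A`.
When the walk is at an element `X_j` outside `A`, the square of `X_j` is trivial, so the product of
`X_j` and `X_{j+1}` is the step between them; hence `G` is algebraically recurrent. The group `A`
is not, by a heavy-tailed walk.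
-/

set_option autoImplicit false

open MeasureTheory

namespace Pool.Agent.Results.MP_7faad7_pr.FiniteIndexNotAR

/-- The walk `X_m = ζ_1 ζ_2 ... ζ_m` with steps `ζ_{l+1} = ω l`. -/
def walk {G : Type} [Group G] (ω : ℕ → G) (m : ℕ) : G := ((List.range m).map ω).prod

/-- `S_n`: the subsemigroup generated by `X_n, X_{n+1}, ...`. -/
def tail {G : Type} [Group G] (ω : ℕ → G) (n : ℕ) : Subsemigroup G :=
  Subsemigroup.closure {g | ∃ m, n ≤ m ∧ g = walk ω m}

/-- The pair `(G, μ)` is algebraically recurrent: for every `n ≥ 1`, almost surely `S_n = G`,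
where the steps are independent with law `μ`. -/
def PairAR {G : Type} [Group G] (μ : PMF G) : Prop :=
  let _ : MeasurableSpace G := ⊤
  ∀ n : ℕ, 1 ≤ n → ∀ᵐ ω ∂(Measure.infinitePi (fun _ : ℕ => μ.toMeasure)), tail ω n = ⊤

/-- The group `G` is algebraically recurrent: `(G, μ)` is, for every symmetric probability measure
`μ` on `G` whose support generates `G` as a group. -/
def GroupAR (G : Type) [Group G] : Prop :=
  ∀ μ : PMF G, (∀ g : G, μ g⁻¹ = μ g) → Subgroup.closure μ.support = ⊤ → PairAR μ

section Helpers

open Pool.Agent.V11323

/-- the direct sum of countably many infinite cyclic groups -/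
abbrev A : Type := Multiplicative (ℕ →₀ ℤ)

/-- the action by inversion of the group of order two -/
noncomputable def act : ℤˣ →* MulAut A where
  toFun u := if u = 1 then 1 else MulEquiv.inv A
  map_one' := if_pos rfl
  map_mul' u v := by
    have hne : ((-1 : ℤˣ)) ≠ 1 := by decide
    have h2 : (MulEquiv.inv A * MulEquiv.inv A : MulAut A) = 1 := by
      ext1 x
      exact inv_inv x
    rcases Int.units_eq_one_or u with rfl | rfl <;> rcases Int.units_eq_one_or v with rfl | rfl
    · simp
    · simp [hne]
    · simp [hne]
    · rw [if_neg hne, h2]; simp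

/-- the generalised dihedral group of `A` -/
abbrev D : Type := A ⋊[act] ℤˣ

theorem countable_D : Countable D := by
  have h1 : Countable A := inferInstanceAs (Countable (ℕ →₀ ℤ))
  exact (SemidirectProduct.equivProd (N := A) (G := ℤˣ) (φ := act)).injective.countable

/-- the sign -/
noncomputable def sgn : D →* ℤˣ := SemidirectProduct.rightHom

theorem sgn_inv (g : D) (hg : sgn g = -1) : g * g = 1 := by
  have hr : g.right = -1 := hg
  apply SemidirectProduct.ext
  · rw [SemidirectProduct.mul_left, hr]
    have h2 : act (-1) = MulEquiv.inv A := by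
      change (if (-1 : ℤˣ) = 1 then (1 : MulAut A) else MulEquiv.inv A) = MulEquiv.inv A
      rw [if_neg (by decide)]
    rw [h2]
    exact mul_inv_cancel g.left
  · rw [SemidirectProduct.mul_right, hr]
    rfl

/-- the subgroup `A` of `D`, of index two -/
noncomputable abbrev H : Subgroup D := sgn.ker

theorem right_eq (h : H) : (h : D).right = 1 := h.2

/-- the embedding of `A` -/
noncomputable def emb : A →* H where
  toFun a := ⟨SemidirectProduct.inl a, by
    rw [MonoidHom.mem_ker]; exact SemidirectProduct.rightHom_inl a⟩
  map_one' := by ext1; simp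
  map_mul' a b := by ext1; simp

/-- the projection to `A` -/
noncomputable def pr : H →* A where
  toFun h := (h : D).left
  map_one' := rfl
  map_mul' h h' := by
    rw [Subgroup.coe_mul, SemidirectProduct.mul_left, right_eq, map_one]
    rfl

theorem pr_emb (a : A) : pr (emb a) = a := rfl

theorem emb_pr (h : H) : emb (pr h) = h := by
  apply Subtype.ext
  apply SemidirectProduct.ext
  · rfl
  · exact (right_eq h).symm

end Helpers

/-- There are a countable algebraically recurrent group `G` and a subgroup `H` of finite index
which is not algebraically recurrent. -/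
theorem result : ∃ (G : Type) (_ : Group G) (_ : Countable G) (H : Subgroup G),
    H.FiniteIndex ∧ GroupAR G ∧ ¬ GroupAR H := by
  have hc : Countable D := countable_D
  refine ⟨D, inferInstance, hc, H, ?_, ?_, ?_⟩
  · exact Subgroup.finiteIndex_ker sgn
  · intro μ h1 h2
    let _ : MeasurableSpace D := ⊤
    have hd : DiscreteMeasurableSpace D := ⟨fun _ => trivial⟩
    intro n _
    exact Pool.Agent.V11323.dih_AR sgn sgn_inv
      ⟨SemidirectProduct.inr (-1), SemidirectProduct.rightHom_inr _⟩ μ h1 h2 n
  · intro h
    let _ : MeasurableSpace H := ⊤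
    have hd : DiscreteMeasurableSpace H := ⟨fun _ => trivial⟩
    let e : ℕ ≃ ℕ := Equiv.refl ℕ
    let s : ℕ → H := fun k => emb (Pool.Agent.V11323.bs e k)
    let c : ℕ → H →* Multiplicative ℤ := fun k => (Pool.Agent.V11323.co e k).comp pr
    have h1 : ∀ i, c i (s i) = Multiplicative.ofAdd 1 := fun i => Pool.Agent.V11323.co_bs e i
    have h0 : ∀ i j, i ≠ j → c i (s j) = 1 := fun i j hij =>
      Pool.Agent.V11323.co_bs_ne e i j hij
    have hgen : Subgroup.closure (Set.range s) = ⊤ := by
      have h3 : Set.range s = emb '' Set.range (Pool.Agent.V11323.bs e) := by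
        rw [← Set.range_comp]; rfl
      rw [h3, ← MonoidHom.map_closure, Pool.Agent.V11323.closure_bs,
        Subgroup.map_top_of_surjective _ fun x => ⟨pr x, emb_pr x⟩]
    obtain ⟨n, hn, hpos⟩ := Pool.Agent.V11323.nu_pos s c h1 h0
    have h2 := h (Pool.Agent.V11323.nu s)
      (Pool.Agent.V11323.nu_symm _) (Pool.Agent.V11323.nu_closure _ hgen) n hn
    exact hpos.ne' (ae_iff.1 h2)

end Pool.Agent.Results.MP_7faad7_pr.FiniteIndexNotAR
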